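import Pool.Agent.H29.SX.Targets

/-!
# Closeness of the points at the different levels (row CLO)
-/

set_option autoImplicit false

open NumberField Height Finset Polynomial Pool.Agent.H24.RD Pool.Agent.H23.RDD Pool.Agent.H29.RQ
  Pool.Agent.H29.SX

namespace Pool.Agent.H70.SX

section

variable {F Ω : Type} [Field F] [Field Ω] [Algebra F Ω]

/-- restriction of an automorphism to a stable field -/
def res (E : IntermediateField F Ω) (hE : ∀ (τ : Ω ≃ₐ[F] Ω), ∀ z ∈ E, τ z ∈ E) (g : Ω ≃ₐ[F] Ω) :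
    E ≃+* E where
  toFun z := ⟨g z, hE g z z.2⟩
  invFun z := ⟨g.symm z, hE g.symm z z.2⟩
  left_inv z := Subtype.ext (g.symm_apply_apply _)
  right_inv z := Subtype.ext (g.apply_symm_apply _)
  map_mul' x y := Subtype.ext (map_mul g (x : Ω) y)
  map_add' x y := Subtype.ext (map_add g (x : Ω) y)

theorem res_coe (E : IntermediateField F Ω) (hE : ∀ (τ : Ω ≃ₐ[F] Ω), ∀ z ∈ E, τ z ∈ E)
    (g : Ω ≃ₐ[F] Ω) (z : E) : ((res E hE g z : E) : Ω) = g (z : Ω) := rfl

/-- the factorisation of the image of a polynomial -/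
theorem fact (E M : IntermediateField F Ω) (hE : ∀ (τ : Ω ≃ₐ[F] Ω), ∀ z ∈ E, τ z ∈ E)
    (hM : ∀ (τ : Ω ≃ₐ[F] Ω), ∀ z ∈ M, τ z ∈ M) (i : E →+* M) (hi : ∀ z : E, ((i z : M) : Ω) = z)
    (h : E[X]) (s : Finset Ω) (hs : ∀ x ∈ s, x ∈ M)
    (hh : h.map (algebraMap E Ω) = ∏ x ∈ s, (X - C x)) (g : Ω ≃ₐ[F] Ω) (U : Finset M)
    (hU : ∀ u : M, u ∈ U ↔ ∃ y ∈ s, (u : Ω) = g y) :
    (h.map ((res E hE g : E ≃+* E) : E →+* E)).map i = ∏ u ∈ U, (X - C u) := by
  classical
  have hinj : Function.Injective (algebraMap M Ω) := (algebraMap M Ω).injective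
  apply Polynomial.map_injective _ hinj
  rw [Polynomial.map_map, Polynomial.map_map, Polynomial.map_prod]
  have h1 : ((algebraMap M Ω).comp i).comp ((res E hE g : E ≃+* E) : E →+* E) =
      (g : Ω →+* Ω).comp (algebraMap E Ω) := by
    ext z
    show ((i (res E hE g z) : M) : Ω) = g (z : Ω)
    rw [hi, res_coe]
  rw [h1, ← Polynomial.map_map, hh, Polynomial.map_prod]
  have h2 : ∀ x : Ω, ((X : Polynomial Ω) - C x).map (g : Ω →+* Ω) = X - C (g x) := by
    intro x
    rw [Polynomial.map_sub, Polynomial.map_X, Polynomial.map_C]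
    rfl
  have h3 : ∀ u : M, ((X : M[X]) - C u).map (algebraMap M Ω) = X - C ((u : M) : Ω) := by
    intro u
    rw [Polynomial.map_sub, Polynomial.map_X, Polynomial.map_C]
    rfl
  simp only [h2, h3]
  have h4 : U.image (fun u : M => (u : Ω)) = s.image g := by
    ext z
    rw [Finset.mem_image, Finset.mem_image]
    constructor
    · rintro ⟨u, hu, rfl⟩
      obtain ⟨y, hy, he⟩ := (hU u).1 hu
      exact ⟨y, hy, he.symm⟩
    · rintro ⟨y, hy, rfl⟩
      exact ⟨⟨g y, hM g y (hs y hy)⟩, (hU _).2 ⟨y, hy, rfl⟩, rfl⟩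
  rw [← Finset.prod_image (s := s) (g := g) (f := fun z => (X : Polynomial Ω) - C z)
      (fun a _ b _ hab => g.injective hab), ← h4, Finset.prod_image]
  intro a _ b _ hab
  exact Subtype.ext hab

end

theorem pf_CLO (h1 : T_PRF) (h2 : T_POWQ) : T_CLO := by
  classical
  intro F Ω _ _ _ _ _ _ _ E hE p f δ hp hδ hδ1 Φ hFro M _ hEM hM e0 c k e' hfe hk w hwp
  have hna : IsNonarchimedean w.1 := fun x y => FinitePlace.add_le w x y
  have hp0 : (p : M) ≠ 0 := by exact_mod_cast hp.ne_zero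
  have hw0 : 0 < w.1 (p : M) := w.1.pos hp0
  set ε : ℝ := w.1 (p : M) ^ δ with hε
  have hε0 : 0 < ε := Real.rpow_pos_of_pos hw0 _
  have hε1 : ε < 1 := Real.rpow_lt_one hw0.le hwp hδ
  have hεp : w.1 (p : M) ≤ ε := by
    calc w.1 (p : M) = w.1 (p : M) ^ (1 : ℝ) := (Real.rpow_one _).symm
      _ ≤ w.1 (p : M) ^ δ := Real.rpow_le_rpow_of_exponent_ge hw0 hwp.le hδ1
  have hpf : ∀ n : ℕ, (p ^ f) ^ n = p ^ (f * n) := fun n => (pow_mul p f n).symm
  constructor
  · intro h s hs hh U hU x hx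
    letI : Algebra E M := (IntermediateField.inclusion hEM).toRingHom.toAlgebra
    have hi : ∀ z : E, ((algebraMap E M z : M) : Ω) = z := fun z => rfl
    -- the set at the level `e0 + c`
    set sM : Finset M := s.attach.image fun y => (⟨(Φ ^ (e0 + c)).symm y.1,
      hM _ y.1 (hs y.1 y.2)⟩ : M) with hsM
    have hsM' : ∀ u : M, u ∈ sM ↔ ∃ y ∈ s, (u : Ω) = (Φ ^ (e0 + c)).symm y := by
      intro u
      rw [hsM, Finset.mem_image]
      constructor
      · rintro ⟨y, _, rfl⟩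
        exact ⟨y.1, y.2, rfl⟩
      · rintro ⟨y, hy, he⟩
        exact ⟨⟨y, hy⟩, Finset.mem_attach _ _, Subtype.ext he.symm⟩
    have hf1 := fact E M hE hM (algebraMap E M) hi h s hs hh ((Φ ^ (e0 + c)).symm) sM hsM'
    have hf2 := fact E M hE hM (algebraMap E M) hi h s hs hh ((Φ ^ e0).symm) U hU
    have hcomp : ((res E hE (Φ ^ c) : E ≃+* E) : E →+* E).comp
        ((res E hE ((Φ ^ (e0 + c)).symm) : E ≃+* E) : E →+* E) =
        ((res E hE ((Φ ^ e0).symm) : E ≃+* E) : E →+* E) := by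
      ext z
      show (Φ ^ c) ((Φ ^ (e0 + c)).symm (z : Ω)) = (Φ ^ e0).symm (z : Ω)
      rw [AlgEquiv.eq_symm_apply, ← AlgEquiv.mul_apply, ← pow_add, AlgEquiv.apply_symm_apply]
    have hf3 : ((h.map ((res E hE ((Φ ^ (e0 + c)).symm) : E ≃+* E) : E →+* E)).map
        ((res E hE (Φ ^ c) : E ≃+* E) : E →+* E)).map (algebraMap E M) =
        ∏ y ∈ U, (X - C y) := by
      rw [← hf2, ← hcomp, ← Polynomial.map_map]
    have key := h1 E M w.1 hna p (f * c) hp ε hε0 hε1 hεp (res E hE (Φ ^ c))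
      (fun z => (hFro M hEM w hwp c (algebraMap E M z) (algebraMap E M (res E hE (Φ ^ c) z))
        z.2 rfl).1)
      (fun z hz => by
        have h3 := (hFro M hEM w hwp c (algebraMap E M z) (algebraMap E M (res E hE (Φ ^ c) z))
          z.2 rfl).2 hz
        rw [hpf] at h3
        rw [map_sub, map_pow]
        exact h3) _ sM U hf1 hf3 x ((hsM' x).2 hx)
    have key2 := h2 M w.1 hna p hp hwp δ k e' hδ hk (x ^ (p ^ (f * c))) U key
    rw [← hfe] at key2
    have e1 : x ^ ((p ^ f) ^ (e0 + c)) = (x ^ (p ^ (f * c))) ^ (p ^ (f * e0)) := by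
      rw [hpf, ← pow_mul, ← pow_add]
      congr 2
      ring
    rw [e1, hpf]
    exact key2
  · intro a ha
    set b : M := algebraMap F M a with hb
    have hbE : (b : Ω) ∈ E := E.algebraMap_mem a
    have hfix : (b : Ω) = (Φ ^ c) (b : Ω) := ((Φ ^ c).commutes a).symm
    have h3 := (hFro M hEM w hwp c b b hbE hfix).2 (le_of_eq ha)
    rw [hpf] at h3
    have hmax : ∀ n : ℕ, max (w.1 (b ^ n)) 1 = 1 := by
      intro n
      rw [map_pow, ha, one_pow, max_self]
    have h4 : ∏ y ∈ ({b} : Finset M), dch w.1 (b ^ (p ^ (f * c))) y ≤ w.1 (p : M) ^ δ := by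
      rw [Finset.prod_singleton]
      unfold dch
      have e1 := hmax 1
      rw [pow_one] at e1
      rw [hmax, e1, one_mul, div_one, w.1.map_sub]
      exact h3
    have key2 := h2 M w.1 hna p hp hwp δ k e' hδ hk (b ^ (p ^ (f * c))) {b} h4
    rw [Finset.prod_singleton, ← hfe] at key2
    unfold dch at key2
    rw [← pow_mul, hmax, hmax, one_mul, div_one, ← pow_add] at key2
    rw [hpf, hpf, show f * (e0 + c) = f * c + f * e0 from by ring]
    exact key2

end Pool.Agent.H70.SX
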